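import Pool.Agent.Q224.DJ.Low
import Pool.Agent.Q224.DJ.Ext
import Pool.Agent.Q224.DJ.Two
import Pool.Agent.Q224.DJ.LA
import Pool.Agent.Q224.DJ.PM
import Pool.Agent.Q224.DJ.E2G
import Pool.Agent.Q247.DJ.Star
import Pool.Agent.Q247.DJ.E1g
import Pool.Agent.Q247.DJ.Ex
import Pool.Agent.Q247.DJ.Signe
import Pool.Agent.Q277.DJ.SIGEQ
import Pool.Agent.Q277.DJ.TU

/-!
# A disconnected minimum-order graph

The triple (7, 8, 8) is graphical, the smallest order is 22, and it is attained by the disjoint
union of the lexicographic product C5[K3] and K7. This graph is disconnected, and its vertices of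
degree 8 are exactly those of C5[K3], which has no clique with more than six vertices. So both
questions of the problem have a negative answer.
-/

set_option autoImplicit false

namespace Pool.Agent.Results.MP_663e97_co.DisconnectedMinimum

open Pool.Agent.Q224.DJ

/-- The triple `(a, b, c)` is graphical via the finite graph `G`: clique number `a`, chromatic
number `b` and maximum degree `c`. -/
def GraphicalVia {V : Type} [Fintype V] (G : SimpleGraph V) [DecidableRel G.Adj]
    (a b c : ℕ) : Prop :=
  G.cliqueNum = a ∧ G.chromaticNumber = b ∧ G.maxDegree = c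

/-- `G` is a minimum-order `(a, b, c)`-graph: the triple is graphical via `G`, and every finite
graph via which the triple is graphical has at least as many vertices. -/
def IsMinimumOrder {V : Type} [Fintype V] (G : SimpleGraph V) [DecidableRel G.Adj]
    (a b c : ℕ) : Prop :=
  GraphicalVia G a b c ∧ ∀ (W : Type) [Fintype W] (H : SimpleGraph W) [DecidableRel H.Adj],
    GraphicalVia H a b c → Fintype.card V ≤ Fintype.card W

open Classical in
/-- There is a minimum-order `(7, 8, 8)`-graph `G`, of order 22, which is disconnected and in which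
no vertex of degree 8 lies in a complete subgraph on seven vertices. -/
theorem result : ∃ G : SimpleGraph (Fin 22), IsMinimumOrder G 7 8 8 ∧ ¬ G.Connected ∧
    ∀ v : Fin 22, G.degree v = 8 → ∀ s : Finset (Fin 22), G.IsNClique 7 s → v ∉ s := by
  have hLA : S_LA := la Pool.Agent.Q277.DJ.tu pm
  have hLB : S_LB := lb hLA
  have hH1 : S_H1 := h1 hLB Pool.Agent.Q247.DJ.star Pool.Agent.Q247.DJ.one two forced
  have hH0 : S_H0 := h0 hLA pg Pool.Agent.Q247.DJ.signe Pool.Agent.Q277.DJ.sigeq
    Pool.Agent.Q247.DJ.e1g e2g
  have hEX : S_EX := Pool.Agent.Q247.DJ.ex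
  refine ⟨exG, ⟨hEX.1, ?_⟩, hEX.2.1, hEX.2.2⟩
  intro W _ H _ hH
  rw [Fintype.card_fin]
  refine low_gen hH1 hH0 ext W H hH.1 hH.2.1 ?_
  intro x
  have h := H.degree_le_maxDegree x
  rw [hH.2.2, ← SimpleGraph.card_neighborFinset_eq_degree] at h
  have e : nb H Finset.univ x = H.neighborFinset x := by
    ext y
    simp [nb]
  rw [e]
  exact h

end Pool.Agent.Results.MP_663e97_co.DisconnectedMinimum
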